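import Mathlib

/-!
# Non-adaptive triple queries for a non-minority ball: `m(n) = 0` for even `n`

Balls are `Fin n`, a colouring is a map `c : Fin n → Bool`, a query set is a finite set `Q` of
triples.  We show that for even `n ≥ 4` every query set containing all the triples that avoid some
fixed ball `b₀` determines a non-minority ball.  The set of all triples avoiding `b₀` has minimum
co-degree `0`, so `m(n) = 0` for every even `n ≥ 4` and `|m(n) - n/2|` is unbounded.
-/

namespace Pool.Agent.Results.MP_d92cd9_co.EvenZero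

open Finset

/-- `b` is a non-minority ball of the colouring `c` of the `n` balls: at least `n/2` balls have
the colour of `b`. -/
def NonMinority {n : ℕ} (c : Fin n → Bool) (b : Fin n) : Prop :=
  n ≤ 2 * (univ.filter (fun x => c x = c b)).card

/-- `a` is a valid answer to the query `T` under `c`: a ball of `T` whose colour is shared by at
least one other ball of `T`. -/
def ValidAnswer {n : ℕ} (c : Fin n → Bool) (T : Finset (Fin n)) (a : Fin n) : Prop :=
  a ∈ T ∧ ∃ b ∈ T, b ≠ a ∧ c b = c a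

/-- `Q` determines a non-minority ball: some map `f` from answer functions to balls returns a
non-minority ball of `c` for every colouring `c` and every answer function valid for `c`. -/
def Determines {n : ℕ} (Q : Finset (Finset (Fin n))) : Prop :=
  ∃ f : ({T // T ∈ Q} → Fin n) → Fin n,
    ∀ (c : Fin n → Bool) (α : {T // T ∈ Q} → Fin n),
      (∀ T : {T // T ∈ Q}, ValidAnswer c T.1 (α T)) → NonMinority c (f α)

/-- The co-degree of the pair `x, y` in `Q`. -/
def codeg {n : ℕ} (Q : Finset (Finset (Fin n))) (x y : Fin n) : ℕ :=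
  (Q.filter (fun T => x ∈ T ∧ y ∈ T)).card

/-- The minimum co-degree `δ₂(Q)` over all pairs of distinct balls. -/
noncomputable def minCodeg {n : ℕ} (Q : Finset (Finset (Fin n))) : ℕ :=
  sInf {d : ℕ | ∃ x y : Fin n, x ≠ y ∧ d = codeg Q x y}

/-- `m(n)`: the least minimum co-degree of a query set (set of triples) on `n` balls that
determines a non-minority ball. -/
noncomputable def m (n : ℕ) : ℕ :=
  sInf {d : ℕ | ∃ Q : Finset (Finset (Fin n)),
    (∀ T ∈ Q, T.card = 3) ∧ Determines Q ∧ d = minCodeg Q}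

/-- the number of balls other than `b₀` with the colour of `x` -/
def cls {n : ℕ} (b₀ : Fin n) (c : Fin n → Bool) (x : Fin n) : Finset (Fin n) :=
  (univ.erase b₀).filter (fun y => c y = c x)

/-- the minority class of `c` on the balls other than `b₀` -/
def mino {n : ℕ} (b₀ : Fin n) (c : Fin n → Bool) : Finset (Fin n) :=
  (univ.erase b₀).filter (fun x => 2 * (cls b₀ c x).card < n)

lemma mem_mino {n : ℕ} {b₀ : Fin n} {c : Fin n → Bool} {x : Fin n} :
    x ∈ mino b₀ c ↔ x ≠ b₀ ∧ 2 * (cls b₀ c x).card < n := by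
  simp [mino]

lemma cls_congr {n : ℕ} {b₀ : Fin n} {c : Fin n → Bool} {x y : Fin n} (h : c x = c y) :
    cls b₀ c x = cls b₀ c y := by
  unfold cls; rw [h]

lemma cls_add {n : ℕ} {b₀ : Fin n} {c : Fin n → Bool} {x y : Fin n} (h : c x ≠ c y) :
    (cls b₀ c x).card + (cls b₀ c y).card = n - 1 := by
  have h1 : cls b₀ c y = (univ.erase b₀).filter (fun z => ¬ c z = c x) := by
    unfold cls
    apply filter_congr
    intro z _
    constructor
    · intro hz hz'
      exact h (hz'.symm.trans hz)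
    · intro hz
      revert h hz
      cases c z <;> cases c x <;> cases c y <;> simp
  rw [h1]
  unfold cls
  rw [card_filter_add_card_filter_not]
  simp

lemma card_mino {n : ℕ} (hn : 4 ≤ n) (he : Even n) (b₀ : Fin n) (c : Fin n → Bool) :
    2 * (mino b₀ c).card + 2 ≤ n := by
  obtain ⟨k, hk⟩ := he
  rcases (mino b₀ c).eq_empty_or_nonempty with h | ⟨x, hx⟩
  · rw [h]; simp; omega
  · have hsub : mino b₀ c ⊆ cls b₀ c x := by
      intro y hy
      by_contra hcon
      have hy' := mem_mino.1 hy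
      have hx' := mem_mino.1 hx
      have hne : c x ≠ c y := by
        intro h
        apply hcon
        simp [cls, hy'.1, h]
      have := cls_add (b₀ := b₀) hne
      omega
    have h1 := card_le_card hsub
    have h2 := (mem_mino.1 hx).2
    omega

lemma nonMinority_of {n : ℕ} {b₀ : Fin n} {c : Fin n → Bool} {x : Fin n}
    (hx : x ≠ b₀) (h : x ∉ mino b₀ c) : NonMinority c x := by
  have h1 : ¬ (2 * (cls b₀ c x).card < n) := fun h' => h (mem_mino.2 ⟨hx, h'⟩)
  have h2 : (cls b₀ c x).card ≤ (univ.filter (fun y => c y = c x)).card := by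
    apply card_le_card
    unfold cls
    exact filter_subset_filter _ (erase_subset _ _)
  unfold NonMinority
  omega

/-- the heart of the matter -/
lemma exists_good {n : ℕ} (hn : 4 ≤ n) (he : Even n) (b₀ : Fin n) (Q : Finset (Finset (Fin n)))
    (hQ : ∀ T : Finset (Fin n), T.card = 3 → b₀ ∉ T → T ∈ Q)
    (α : {T // T ∈ Q} → Fin n) :
    ∃ b : Fin n, ∀ c : Fin n → Bool,
      (∀ T : {T // T ∈ Q}, ValidAnswer c T.1 (α T)) → NonMinority c b := by
  classical
  by_contra hcon
  push Not at hcon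
  set S₀ : Finset (Fin n → Bool) :=
    univ.filter (fun c => ∀ T : {T // T ∈ Q}, ValidAnswer c T.1 (α T)) with hS₀
  let P : Finset (Fin n → Bool) → Prop := fun S => ∀ b, b ≠ b₀ → ∃ c ∈ S, b ∈ mino b₀ c
  have hP0 : P S₀ := by
    intro b hb
    obtain ⟨c, hc, hcb⟩ := hcon b
    refine ⟨c, by rw [hS₀, mem_filter]; exact ⟨mem_univ _, hc⟩, ?_⟩
    by_contra h
    exact hcb (nonMinority_of hb h)
  obtain ⟨S, hS, hmin⟩ := exists_min_image (S₀.powerset.filter P) card
    ⟨S₀, by simp [hP0]⟩
  rw [mem_filter, mem_powerset] at hS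
  obtain ⟨hSS, hPS⟩ := hS
  -- private elements
  have hpriv : ∀ c ∈ S, ∃ x, x ≠ b₀ ∧ x ∈ mino b₀ c ∧ ∀ c' ∈ S, c' ≠ c → x ∉ mino b₀ c' := by
    intro c hc
    have hnot : ¬ P (S.erase c) := by
      intro hP
      have := hmin (S.erase c) (by
        rw [mem_filter, mem_powerset]
        exact ⟨(erase_subset _ _).trans hSS, hP⟩)
      rw [card_erase_of_mem hc] at this
      have hpos : 0 < S.card := card_pos.2 ⟨c, hc⟩
      omega
    simp only [P] at hnot
    push Not at hnot
    obtain ⟨x, hx, hx2⟩ := hnot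
    have hx3 : ∀ c' ∈ S, c' ≠ c → x ∉ mino b₀ c' := by
      intro c' hc' hne
      exact hx2 c' (mem_erase.2 ⟨hne, hc'⟩)
    obtain ⟨c'', hc'', hxc⟩ := hPS x hx
    have : c'' = c := by
      by_contra hne
      exact hx3 c'' hc'' hne hxc
    subst this
    exact ⟨x, hx, hxc, hx3⟩
  by_cases hcard : 2 < S.card
  · obtain ⟨c1, c2, c3, h1, h2, h3, h12, h13, h23⟩ := two_lt_card_iff.1 hcard
    obtain ⟨x1, hx1, hm1, hp1⟩ := hpriv c1 h1
    obtain ⟨x2, hx2, hm2, hp2⟩ := hpriv c2 h2
    obtain ⟨x3, hx3, hm3, hp3⟩ := hpriv c3 h3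
    have n12 : x1 ≠ x2 := fun h => hp2 c1 h1 h12 (h ▸ hm1)
    have n13 : x1 ≠ x3 := fun h => hp3 c1 h1 h13 (h ▸ hm1)
    have n23 : x2 ≠ x3 := fun h => hp3 c2 h2 h23 (h ▸ hm2)
    have hT : ({x1, x2, x3} : Finset (Fin n)) ∈ Q := by
      apply hQ
      · rw [card_eq_three]
        exact ⟨x1, x2, x3, n12, n13, n23, rfl⟩
      · simp only [mem_insert, mem_singleton, not_or]
        exact ⟨hx1.symm, hx2.symm, hx3.symm⟩
    -- key: a private element of `c` has a colour (under `c`) different from the two others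
    have key : ∀ (c : Fin n → Bool) (x y : Fin n), x ∈ mino b₀ c → y ≠ b₀ → y ∉ mino b₀ c →
        c y ≠ c x := by
      intro c x y hx hy hy' h
      apply hy'
      rw [mem_mino] at hx ⊢
      refine ⟨hy, ?_⟩
      rw [cls_congr h]
      exact hx.2
    have hv : ∀ c ∈ S, ValidAnswer c {x1, x2, x3} (α ⟨{x1, x2, x3}, hT⟩) := by
      intro c hc
      have := hSS hc
      rw [hS₀, mem_filter] at this
      exact this.2 ⟨{x1, x2, x3}, hT⟩
    have hmem := (hv c1 h1).1
    simp only [mem_insert, mem_singleton] at hmem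
    rcases hmem with h | h | h
    · obtain ⟨-, y, hy, hne, hcy⟩ := hv c1 h1
      rw [h] at hne hcy
      simp only [mem_insert, mem_singleton] at hy
      rcases hy with rfl | rfl | rfl
      · exact hne rfl
      · exact key c1 x1 _ hm1 hx2 (hp2 c1 h1 h12) hcy
      · exact key c1 x1 _ hm1 hx3 (hp3 c1 h1 h13) hcy
    · obtain ⟨-, y, hy, hne, hcy⟩ := hv c2 h2
      rw [h] at hne hcy
      simp only [mem_insert, mem_singleton] at hy
      rcases hy with rfl | rfl | rfl
      · exact key c2 x2 _ hm2 hx1 (hp1 c2 h2 h12.symm) hcy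
      · exact hne rfl
      · exact key c2 x2 _ hm2 hx3 (hp3 c2 h2 h23) hcy
    · obtain ⟨-, y, hy, hne, hcy⟩ := hv c3 h3
      rw [h] at hne hcy
      simp only [mem_insert, mem_singleton] at hy
      rcases hy with rfl | rfl | rfl
      · exact key c3 x3 _ hm3 hx1 (hp1 c3 h3 h13.symm) hcy
      · exact key c3 x3 _ hm3 hx2 (hp2 c3 h3 h23.symm) hcy
      · exact hne rfl
  · have hcov : (univ.erase b₀ : Finset (Fin n)) ⊆ S.biUnion (mino b₀) := by
      intro b hb
      rw [mem_erase] at hb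
      obtain ⟨c, hc, hbc⟩ := hPS b hb.1
      exact mem_biUnion.2 ⟨c, hc, hbc⟩
    have h1 := card_le_card hcov
    obtain ⟨k, hk⟩ := he
    have h2 : (S.biUnion (mino b₀)).card ≤ S.card * (k - 1) := by
      apply card_biUnion_le_card_mul
      intro c _
      have := card_mino hn ⟨k, hk⟩ b₀ c
      omega
    have h3 : S.card * (k - 1) ≤ 2 * (k - 1) := Nat.mul_le_mul_right _ (by omega)
    rw [card_erase_of_mem (mem_univ _), card_univ, Fintype.card_fin] at h1
    omega

/-- **Result.** For even `n ≥ 4`: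
1. every set of triples that contains all the triples avoiding some ball `b₀` determines a
   non-minority ball;
2. there is such a set of triples with minimum co-degree `0`;
3. hence `m(n) = 0`.
4. Consequently there is no absolute constant `C` with `|m(n) - n/2| ≤ C` for all `n ≥ 3`. -/
theorem result :
    (∀ n : ℕ, 4 ≤ n → Even n → ∀ (b₀ : Fin n) (Q : Finset (Finset (Fin n))),
      (∀ T : Finset (Fin n), T.card = 3 → b₀ ∉ T → T ∈ Q) → Determines Q) ∧
    (∀ n : ℕ, 4 ≤ n → Even n → ∃ Q : Finset (Finset (Fin n)),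
      (∀ T ∈ Q, T.card = 3) ∧ Determines Q ∧ minCodeg Q = 0) ∧
    (∀ n : ℕ, 4 ≤ n → Even n → m n = 0) ∧
    ¬ ∃ C : ℝ, ∀ n : ℕ, 3 ≤ n → |(m n : ℝ) - (n : ℝ) / 2| ≤ C := by
  have A : ∀ n : ℕ, 4 ≤ n → Even n → ∀ (b₀ : Fin n) (Q : Finset (Finset (Fin n))),
      (∀ T : Finset (Fin n), T.card = 3 → b₀ ∉ T → T ∈ Q) → Determines Q := by
    intro n hn he b₀ Q hQ
    choose f hf using exists_good hn he b₀ Q hQ
    exact ⟨f, fun c α h => hf α c h⟩
  have B : ∀ n : ℕ, 4 ≤ n → Even n → ∃ Q : Finset (Finset (Fin n)),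
      (∀ T ∈ Q, T.card = 3) ∧ Determines Q ∧ minCodeg Q = 0 := by
    intro n hn he
    have h0 : 0 < n := by omega
    have h1 : 1 < n := by omega
    refine ⟨univ.filter (fun T => T.card = 3 ∧ (⟨0, h0⟩ : Fin n) ∉ T), ?_, ?_, ?_⟩
    · intro T hT
      exact (mem_filter.1 hT).2.1
    · apply A n hn he ⟨0, h0⟩
      intro T hT hb
      simp [hT, hb]
    · unfold minCodeg
      apply Nat.sInf_eq_zero.2
      left
      refine ⟨⟨0, h0⟩, ⟨1, h1⟩, by simp [Fin.ext_iff], ?_⟩
      unfold codeg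
      symm
      rw [card_eq_zero, filter_eq_empty_iff]
      intro T hT hT'
      exact (mem_filter.1 hT).2.2 hT'.1
  have D : ∀ n : ℕ, 4 ≤ n → Even n → m n = 0 := by
    intro n hn he
    obtain ⟨Q, h1, h2, h3⟩ := B n hn he
    unfold m
    apply Nat.sInf_eq_zero.2
    left
    exact ⟨Q, h1, h2, h3.symm⟩
  refine ⟨A, B, D, ?_⟩
  rintro ⟨C, hC⟩
  obtain ⟨k, hk⟩ := exists_nat_gt C
  have h1 := hC (2 * (k + 2)) (by omega)
  rw [D (2 * (k + 2)) (by omega) ⟨k + 2, by ring⟩] at h1
  push_cast at h1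
  have h2 : |(0 : ℝ) - 2 * ((k : ℝ) + 2) / 2| = (k : ℝ) + 2 := by
    rw [show (0 : ℝ) - 2 * ((k : ℝ) + 2) / 2 = -((k : ℝ) + 2) by ring, abs_neg]
    exact abs_of_nonneg (by positivity)
  rw [h2] at h1
  linarith

end Pool.Agent.Results.MP_d92cd9_co.EvenZero
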